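import Pool.Agent.Helper10.GO.GoalsC

/-!
# Project GO (MP_6af536_nt), packet VSUB: submultiplicativity of the volumes
-/

set_option autoImplicit false

open MvPolynomial Filter Topology

noncomputable section

namespace Pool.Agent.Helper94.GO

open Pool.Agent.Helper10.GO

theorem vp_mul (d : ℕ) (D : Fin (d + 1) → ℝ) (c a e : ℝ) :
    vp d D (c * a) (c * e) = c ^ d * vp d D a e := by
  unfold vp
  rw [Finset.mul_sum]
  refine Finset.sum_congr rfl fun i _ => ?_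
  have hi : d - (i : ℕ) + (i : ℕ) = d := by have := i.2; omega
  have h : c ^ d = c ^ (d - (i : ℕ)) * c ^ (i : ℕ) := by rw [← pow_add, hi]
  rw [h, mul_pow, mul_pow]
  ring

theorem vp_cont (d : ℕ) (D : Fin (d + 1) → ℝ) : Continuous fun p : ℝ × ℝ => vp d D p.1 p.2 := by
  unfold vp
  fun_prop

theorem sp_fg {K : Type} [Field K] [Algebra K ℂ] {N : ℕ} (x : Fin (N + 1) → ℂ) : (sp K x).FG :=
  Submodule.fg_span (Set.finite_range x)

theorem ceil_tendsto {a : ℝ} (ha : 0 < a) :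
    Tendsto (fun k : ℕ => (⌈a * (k : ℝ)⌉₊ : ℝ) / (k : ℝ)) atTop (𝓝 a) :=
  (tendsto_nat_ceil_mul_div_atTop ha.le).comp tendsto_natCast_atTop_atTop

theorem vsub (hPET : S_PET) (hISO : S_ISO) : S_VSUB := by
  intro K _ _ N δ d Γ ξ D hG hV
  obtain ⟨-, -, -, hdim⟩ := hISO K N δ Γ ξ hG
  intro n m
  have hfac : (0 : ℝ) < (d.factorial : ℝ) := by exact_mod_cast d.factorial_pos
  -- natural numbers
  have hnat : ∀ a b e : ℕ, 1 ≤ a → 1 ≤ b → 1 ≤ e →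
      vp d (D (n + m)) a e * (b : ℝ) ^ d ≤ (d.factorial : ℝ) * vp d (D n) a b * vp d (D m) b e := by
    intro a b e ha hb he
    have hl1 := hV.lim (n + m) a e ha he
    have hl2 := hV.lim n a b ha hb
    have hl3 := hV.lim m b e hb he
    have hL : Tendsto (fun t : ℕ => (Module.finrank K (sp K (ξ 0) ^ (a * t) * sp K (ξ (n + m)) ^ (e * t) :
        Submodule K ℂ) : ℝ) / (t : ℝ) ^ d * (b : ℝ) ^ d) atTop (𝓝 (vp d (D (n + m)) a e * (b : ℝ) ^ d)) :=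
      hl1.mul_const _
    have hR : Tendsto (fun t : ℕ => (d.factorial : ℝ) *
        ((Module.finrank K (sp K (ξ 0) ^ (a * t) * sp K (ξ n) ^ (b * t) : Submodule K ℂ) : ℝ) / (t : ℝ) ^ d) *
        ((Module.finrank K (sp K (ξ 0) ^ (b * t) * sp K (ξ m) ^ (e * t) : Submodule K ℂ) : ℝ) / (t : ℝ) ^ d)) atTop
        (𝓝 ((d.factorial : ℝ) * vp d (D n) a b * vp d (D m) b e)) :=
      (hl2.const_mul _).mul hl3
    refine le_of_tendsto_of_tendsto hL hR ?_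
    filter_upwards [eventually_ge_atTop 1] with t ht
    have ht0 : (0 : ℝ) < (t : ℝ) := by exact_mod_cast ht
    have hp := hPET K ℂ (sp K (ξ 0) ^ (a * t)) (sp K (ξ n) ^ (b * t)) (sp K (ξ (n + m)) ^ (e * t))
      ((sp_fg _).pow _) ((sp_fg _).pow _) ((sp_fg _).pow _)
    have hY : Module.finrank K (sp K (ξ n) ^ (b * t) : Submodule K ℂ) =
        Module.finrank K (sp K (ξ 0) ^ (b * t) : Submodule K ℂ) := by
      have h := hdim n 0 (b * t) 0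
      have e1 : ∀ W V : Submodule K ℂ, W * V ^ 0 = W := fun W V => by
        rw [show V ^ 0 = 1 from pow_zero V, mul_one]
      rw [e1, e1] at h
      exact h
    have hYC := hdim n m (b * t) (e * t)
    rw [hYC, hY] at hp
    have hlow := hV.low (b * t)
    set x : ℝ := (Module.finrank K (sp K (ξ 0) ^ (a * t) * sp K (ξ (n + m)) ^ (e * t) : Submodule K ℂ) : ℝ)
      with hx
    set y : ℝ := (Module.finrank K (sp K (ξ 0) ^ (a * t) * sp K (ξ n) ^ (b * t) : Submodule K ℂ) : ℝ) with hy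
    set z : ℝ := (Module.finrank K (sp K (ξ 0) ^ (b * t) * sp K (ξ m) ^ (e * t) : Submodule K ℂ) : ℝ) with hz
    have hp' : x * (Module.finrank K (sp K (ξ 0) ^ (b * t) : Submodule K ℂ) : ℝ) ≤ y * z := by
      rw [hx, hy, hz]
      exact_mod_cast hp
    have hx0 : 0 ≤ x := by rw [hx]; positivity
    have h1 : x * (((b * t : ℕ) : ℝ) ^ d / (d.factorial : ℝ)) ≤ y * z :=
      le_trans (mul_le_mul_of_nonneg_left hlow hx0) hp'
    have htd : (0 : ℝ) < (t : ℝ) ^ d := pow_pos ht0 d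
    have h2 : x * ((b : ℝ) ^ d * (t : ℝ) ^ d) ≤ (d.factorial : ℝ) * (y * z) := by
      have h3 : x * (((b * t : ℕ) : ℝ) ^ d / (d.factorial : ℝ)) * (d.factorial : ℝ) =
          x * ((b : ℝ) ^ d * (t : ℝ) ^ d) := by
        push_cast
        rw [mul_pow]
        field_simp
      nlinarith [mul_le_mul_of_nonneg_right h1 hfac.le]
    have h4 : x / (t : ℝ) ^ d * (b : ℝ) ^ d = x * ((b : ℝ) ^ d * (t : ℝ) ^ d) / ((t : ℝ) ^ d * (t : ℝ) ^ d) := by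
      field_simp
    have h5 : (d.factorial : ℝ) * (y / (t : ℝ) ^ d) * (z / (t : ℝ) ^ d) =
        (d.factorial : ℝ) * (y * z) / ((t : ℝ) ^ d * (t : ℝ) ^ d) := by
      field_simp
    rw [h4, h5]
    exact div_le_div_of_nonneg_right h2 (by positivity)
  -- real numbers
  intro a b e ha hb he
  have hca := ceil_tendsto ha
  have hcb := ceil_tendsto hb
  have hce := ceil_tendsto he
  have hvp : ∀ (E : Fin (d + 1) → ℝ) (u v : ℝ) (f g : ℕ → ℝ), Tendsto f atTop (𝓝 u) → Tendsto g atTop (𝓝 v) →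
      Tendsto (fun k => vp d E (f k) (g k)) atTop (𝓝 (vp d E u v)) := by
    intro E u v f g hf hg
    exact ((vp_cont d E).tendsto (u, v)).comp (hf.prodMk_nhds hg)
  have hL : Tendsto (fun k : ℕ => vp d (D (n + m)) ((⌈a * (k : ℝ)⌉₊ : ℝ) / (k : ℝ))
      ((⌈e * (k : ℝ)⌉₊ : ℝ) / (k : ℝ)) * ((⌈b * (k : ℝ)⌉₊ : ℝ) / (k : ℝ)) ^ d) atTop
      (𝓝 (vp d (D (n + m)) a e * b ^ d)) := (hvp _ _ _ _ _ hca hce).mul (hcb.pow d)
  have hR : Tendsto (fun k : ℕ => (d.factorial : ℝ) * vp d (D n) ((⌈a * (k : ℝ)⌉₊ : ℝ) / (k : ℝ))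
      ((⌈b * (k : ℝ)⌉₊ : ℝ) / (k : ℝ)) * vp d (D m) ((⌈b * (k : ℝ)⌉₊ : ℝ) / (k : ℝ))
      ((⌈e * (k : ℝ)⌉₊ : ℝ) / (k : ℝ))) atTop
      (𝓝 ((d.factorial : ℝ) * vp d (D n) a b * vp d (D m) b e)) :=
    ((hvp _ _ _ _ _ hca hcb).const_mul _).mul (hvp _ _ _ _ _ hcb hce)
  refine le_of_tendsto_of_tendsto hL hR ?_
  filter_upwards [eventually_ge_atTop 1] with k hk
  have hk0 : (0 : ℝ) < (k : ℝ) := by exact_mod_cast hk
  have hpos : ∀ u : ℝ, 0 < u → 1 ≤ ⌈u * (k : ℝ)⌉₊ := by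
    intro u hu
    exact Nat.one_le_iff_ne_zero.mpr (Nat.ceil_pos.mpr (mul_pos hu hk0)).ne'
  have h := hnat ⌈a * (k : ℝ)⌉₊ ⌈b * (k : ℝ)⌉₊ ⌈e * (k : ℝ)⌉₊ (hpos a ha) (hpos b hb) (hpos e he)
  have hdiv : ∀ (E : Fin (d + 1) → ℝ) (u v : ℝ), vp d E (u / k) (v / k) = vp d E u v / (k : ℝ) ^ d := by
    intro E u v
    have h := vp_mul d E ((k : ℝ)⁻¹) u v
    rw [div_eq_inv_mul, div_eq_inv_mul, h, inv_pow, div_eq_inv_mul]
  simp only [hdiv, div_pow]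
  have hkd : (0 : ℝ) < (k : ℝ) ^ d := pow_pos hk0 d
  set P := vp d (D (n + m)) (⌈a * (k : ℝ)⌉₊ : ℝ) (⌈e * (k : ℝ)⌉₊ : ℝ) with hP
  set Q := vp d (D n) (⌈a * (k : ℝ)⌉₊ : ℝ) (⌈b * (k : ℝ)⌉₊ : ℝ) with hQ
  set R := vp d (D m) (⌈b * (k : ℝ)⌉₊ : ℝ) (⌈e * (k : ℝ)⌉₊ : ℝ) with hR'
  have e1 : P / (k : ℝ) ^ d * ((⌈b * (k : ℝ)⌉₊ : ℝ) ^ d / (k : ℝ) ^ d) =
      P * (⌈b * (k : ℝ)⌉₊ : ℝ) ^ d / ((k : ℝ) ^ d * (k : ℝ) ^ d) := by
    rw [div_mul_div_comm]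
  have e2 : (d.factorial : ℝ) * (Q / (k : ℝ) ^ d) * (R / (k : ℝ) ^ d) =
      (d.factorial : ℝ) * Q * R / ((k : ℝ) ^ d * (k : ℝ) ^ d) := by
    field_simp
  rw [e1, e2]
  exact div_le_div_of_nonneg_right h (by positivity)

end Pool.Agent.Helper94.GO
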